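import Mathlib

namespace Pool.Agent.Results.MP_93593e_co.ArcBound

open Relation Finset

/-- Strong connectivity of the digraph with arc relation `E`. -/
def StronglyConnected {V : Type*} (E : V → V → Prop) : Prop := ∀ u v, ReflTransGen E u v

/-- The underlying undirected graph is biconnected: it is connected, and for every vertex `x` any
two vertices other than `x` are joined by a path of the underlying graph avoiding `x`. -/
def UBiconnected {V : Type*} (E : V → V → Prop) : Prop :=
  (∀ u v, ReflTransGen (fun a b => E a b ∨ E b a) u v) ∧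
  ∀ x u v, u ≠ x → v ≠ x →
    ReflTransGen (fun a b => a ≠ x ∧ b ≠ x ∧ (E a b ∨ E b a)) u v

/-- Strongly biconnected digraphs. -/
def StronglyBiconnected {V : Type*} (E : V → V → Prop) : Prop :=
  StronglyConnected E ∧ UBiconnected E

/-- delete the arc `(a, b)` -/
def DelArc {V : Type*} (E : V → V → Prop) (a b : V) : V → V → Prop :=
  fun u v => E u v ∧ ¬ (u = a ∧ v = b)

/-- 2-edge-strongly biconnected digraphs. -/
def TwoESB {V : Type*} [Fintype V] (E : V → V → Prop) : Prop :=
  StronglyBiconnected E ∧ 3 ≤ Fintype.card V ∧ ∀ a b, E a b → StronglyBiconnected (DelArc E a b)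

/-- Minimal 2-edge-strongly biconnected digraphs. -/
def IsMinimalTwoESB {V : Type*} [Fintype V] (E : V → V → Prop) : Prop :=
  TwoESB E ∧ ∀ a b, E a b → ¬ TwoESB (DelArc E a b)

section Rooted

set_option linter.unusedSectionVars false
variable {V α : Type*} [Fintype V] [DecidableEq V] [DecidableEq α]

/-- arcs entering `X` -/
def inn (t h : α → V) (H : Finset α) (X : Finset V) : Finset α :=
  H.filter fun e => t e ∉ X ∧ h e ∈ X

lemma inn_submod (t h : α → V) (H : Finset α) (X Y : Finset V) :
    #(inn t h H (X ∩ Y)) + #(inn t h H (X ∪ Y)) ≤ #(inn t h H X) + #(inn t h H Y) := by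
  unfold inn
  rw [Finset.card_filter, Finset.card_filter, Finset.card_filter, Finset.card_filter,
    ← Finset.sum_add_distrib, ← Finset.sum_add_distrib]
  refine Finset.sum_le_sum fun e _ => ?_
  by_cases h1 : t e ∈ X <;> by_cases h2 : t e ∈ Y <;> by_cases h3 : h e ∈ X <;>
    by_cases h4 : h e ∈ Y <;> simp [h1, h2, h3, h4]

lemma inn_mono (t h : α → V) {H H' : Finset α} (hH : H ⊆ H') (X : Finset V) :
    #(inn t h H X) ≤ #(inn t h H' X) :=
  Finset.card_le_card (Finset.filter_subset_filter _ hH)

lemma rooted (t h : α → V) (G : Finset α) (r : V)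
    (hG : ∀ X : Finset V, X.Nonempty → r ∉ X → 2 ≤ #(inn t h G X)) :
    ∃ H ⊆ G, (∀ X : Finset V, X.Nonempty → r ∉ X → 2 ≤ #(inn t h H X)) ∧
      #H ≤ 2 * (Fintype.card V - 1) := by
  classical
  have hne : (G.powerset.filter fun H => ∀ X : Finset V, X.Nonempty → r ∉ X →
      2 ≤ #(inn t h H X)).Nonempty :=
    ⟨G, Finset.mem_filter.2 ⟨Finset.mem_powerset.2 (Finset.Subset.refl _), hG⟩⟩
  obtain ⟨H, hH, hmin⟩ := Finset.exists_min_image _ (fun H => #H) hne
  rw [Finset.mem_filter, Finset.mem_powerset] at hH
  refine ⟨H, hH.1, hH.2, ?_⟩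
  -- every arc of H enters a tight set
  have htight : ∀ e ∈ H, ∃ X : Finset V, r ∉ X ∧ t e ∉ X ∧ h e ∈ X ∧ #(inn t h H X) = 2 := by
    intro e he
    by_contra hcon
    have h1 : H.erase e ∈ G.powerset.filter fun H => ∀ X : Finset V, X.Nonempty → r ∉ X →
        2 ≤ #(inn t h H X) := by
      rw [Finset.mem_filter, Finset.mem_powerset]
      refine ⟨(Finset.erase_subset _ _).trans hH.1, fun X hX hr => ?_⟩
      have h2 := hH.2 X hX hr
      by_cases hent : t e ∉ X ∧ h e ∈ X
      · have h3 : #(inn t h H X) ≠ 2 := fun h3 => hcon ⟨X, hr, hent.1, hent.2, h3⟩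
        have h4 : inn t h (H.erase e) X = (inn t h H X).erase e := by
          ext f
          simp only [inn, Finset.mem_filter, Finset.mem_erase]
          tauto
        rw [h4]
        have h5 : e ∈ inn t h H X := by
          simp only [inn, Finset.mem_filter]
          exact ⟨he, hent⟩
        rw [Finset.card_erase_of_mem h5]
        omega
      · have h4 : inn t h (H.erase e) X = inn t h H X := by
          ext f
          simp only [inn, Finset.mem_filter, Finset.mem_erase]
          constructor
          · rintro ⟨⟨_, h5⟩, h6⟩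
            exact ⟨h5, h6⟩
          · rintro ⟨h5, h6⟩
            refine ⟨⟨?_, h5⟩, h6⟩
            rintro rfl
            exact hent h6
        rw [h4]
        exact h2
    have h2 := hmin _ h1
    rw [Finset.card_erase_of_mem he] at h2
    have h3 : 0 < #H := Finset.card_pos.2 ⟨e, he⟩
    omega
  -- in-degrees
  have hdeg : ∀ v, v ≠ r → #(H.filter fun e => h e = v) ≤ 2 := by
    intro v hv
    by_cases hex : ∃ e ∈ H, h e = v
    · obtain ⟨e0, he0, he0v⟩ := hex
      have hne2 : ((Finset.univ : Finset (Finset V)).filter fun X =>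
          r ∉ X ∧ v ∈ X ∧ #(inn t h H X) = 2).Nonempty := by
        obtain ⟨X, h1, h2, h3, h4⟩ := htight e0 he0
        exact ⟨X, Finset.mem_filter.2 ⟨Finset.mem_univ _, h1, by rw [← he0v]; exact h3, h4⟩⟩
      obtain ⟨T, hT, hTmin⟩ := Finset.exists_min_image _ (fun X => #X) hne2
      rw [Finset.mem_filter] at hT
      obtain ⟨-, hTr, hTv, hT2⟩ := hT
      have hsub : (H.filter fun e => h e = v) ⊆ inn t h H T := by
        intro e he
        rw [Finset.mem_filter] at he
        obtain ⟨X, h1, h2, h3, h4⟩ := htight e he.1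
        rw [he.2] at h3
        have hsm := inn_submod t h H T X
        have hi : 2 ≤ #(inn t h H (T ∩ X)) :=
          hH.2 _ ⟨v, Finset.mem_inter.2 ⟨hTv, h3⟩⟩ (fun h => hTr (Finset.mem_inter.1 h).1)
        have hu : 2 ≤ #(inn t h H (T ∪ X)) :=
          hH.2 _ ⟨v, Finset.mem_union.2 (Or.inl hTv)⟩
            (fun h => (Finset.mem_union.1 h).elim hTr h1)
        have hi2 : #(inn t h H (T ∩ X)) = 2 := by omega
        have hle := hTmin (T ∩ X) (Finset.mem_filter.2 ⟨Finset.mem_univ _,
          fun h => hTr (Finset.mem_inter.1 h).1, Finset.mem_inter.2 ⟨hTv, h3⟩, hi2⟩)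
        have heq : T ∩ X = T := Finset.eq_of_subset_of_card_le Finset.inter_subset_left hle
        have hTX : T ⊆ X := by
          rw [← heq]
          exact Finset.inter_subset_right
        simp only [inn, Finset.mem_filter]
        exact ⟨he.1, fun h => h2 (hTX h), by rw [he.2]; exact hTv⟩
      rw [← hT2]
      exact Finset.card_le_card hsub
    · have : (H.filter fun e => h e = v) = ∅ := by
        rw [Finset.filter_eq_empty_iff]
        intro e he hev
        exact hex ⟨e, he, hev⟩
      rw [this]
      simp
  have hr0 : #(H.filter fun e => h e = r) = 0 := by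
    rw [Finset.card_eq_zero, Finset.filter_eq_empty_iff]
    intro e he her
    obtain ⟨X, h1, h2, h3, h4⟩ := htight e he
    rw [her] at h3
    exact h1 h3
  have hsum : #H = ∑ v : V, #(H.filter fun e => h e = v) :=
    Finset.card_eq_sum_card_fiberwise (fun _ _ => Finset.mem_coe.2 (Finset.mem_univ _))
  rw [hsum, ← Finset.add_sum_erase _ _ (Finset.mem_univ r), hr0, zero_add]
  calc ∑ v ∈ Finset.univ.erase r, #(H.filter fun e => h e = v)
      ≤ ∑ v ∈ Finset.univ.erase r, 2 :=
        Finset.sum_le_sum fun v hv => hdeg v (Finset.ne_of_mem_erase hv)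
    _ = 2 * (Fintype.card V - 1) := by
        rw [Finset.sum_const, Finset.card_erase_of_mem (Finset.mem_univ _), Finset.card_univ,
          smul_eq_mul, mul_comm]

end Rooted

section Conn

set_option linter.unusedSectionVars false
variable {V : Type*} [Fintype V] [DecidableEq V]

/-- connectivity in the multigraph with edge set `M` -/
def conn (M : Finset (V × V)) (u v : V) : Prop :=
  ReflTransGen (fun a b => (a, b) ∈ M ∨ (b, a) ∈ M) u v

lemma conn_refl (M : Finset (V × V)) (u : V) : conn M u u := ReflTransGen.refl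

lemma conn_symm {M : Finset (V × V)} {u v : V} (h : conn M u v) : conn M v u := by
  induction h with
  | refl => exact ReflTransGen.refl
  | tail _ h ih => exact ReflTransGen.head h.symm ih

lemma conn_trans {M : Finset (V × V)} {u v w : V} (h : conn M u v) (h' : conn M v w) :
    conn M u w := ReflTransGen.trans h h'

lemma conn_mono {M M' : Finset (V × V)} (hM : M ⊆ M') {u v : V} (h : conn M u v) :
    conn M' u v := by
  induction h with
  | refl => exact ReflTransGen.refl
  | tail _ h ih => exact ih.tail (h.imp (fun h => hM h) (fun h => hM h))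

lemma conn_arc {M : Finset (V × V)} {e : V × V} (he : e ∈ M) : conn M e.1 e.2 :=
  ReflTransGen.single (Or.inl he)

/-- connectivity after deletion of any edge -/
def conn2 (M : Finset (V × V)) (u v : V) : Prop := ∀ e, conn (M.erase e) u v

lemma conn2_mono {M M' : Finset (V × V)} (hM : M ⊆ M') {u v : V} (h : conn2 M u v) :
    conn2 M' u v := fun e => conn_mono (Finset.erase_subset_erase e hM) (h e)

/-- the setoid of connectivity -/
def cS (M : Finset (V × V)) : Setoid V where
  r := conn M
  iseqv := ⟨conn_refl M, conn_symm, conn_trans⟩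

/-- the setoid of 2-edge-connectivity -/
def c2S (M : Finset (V × V)) : Setoid V where
  r := conn2 M
  iseqv := ⟨fun u _ => conn_refl _ u, fun h e => conn_symm (h e),
    fun h h' e => conn_trans (h e) (h' e)⟩

/-- number of components -/
noncomputable def nc (M : Finset (V × V)) : ℕ := Nat.card (Quotient (cS M))

/-- number of 2-edge-connected components -/
noncomputable def na (M : Finset (V × V)) : ℕ := Nat.card (Quotient (c2S M))

lemma card_quot_le {s t : Setoid V} (h : ∀ u v, s.r u v → t.r u v) :
    Nat.card (Quotient t) ≤ Nat.card (Quotient s) := by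
  classical
  let f : Quotient s → Quotient t := Quotient.map' id h
  have hf : Function.Surjective f := by
    intro q
    obtain ⟨v, rfl⟩ := Quotient.exists_rep q
    exact ⟨Quotient.mk s v, rfl⟩
  exact Nat.card_le_card_of_surjective f hf

lemma card_quot_lt {s t : Setoid V} (h : ∀ u v, s.r u v → t.r u v) {u v : V}
    (h1 : ¬ s.r u v) (h2 : t.r u v) : Nat.card (Quotient t) < Nat.card (Quotient s) := by
  classical
  let f : Quotient s → Quotient t := Quotient.map' id h
  have hf : Function.Surjective f := by
    intro q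
    obtain ⟨v, rfl⟩ := Quotient.exists_rep q
    exact ⟨Quotient.mk s v, rfl⟩
  have hf' : ¬ Function.Injective f := by
    intro hinj
    have h3 : f (Quotient.mk s u) = f (Quotient.mk s v) := Quotient.sound h2
    exact h1 (Quotient.exact (hinj h3))
  have := Fintype.ofFinite (Quotient s)
  have := Fintype.ofFinite (Quotient t)
  rw [Nat.card_eq_fintype_card, Nat.card_eq_fintype_card]
  exact Fintype.card_lt_of_surjective_not_injective f hf hf'

lemma conn_of_conn2 {M : Finset (V × V)} {u v : V} (h : conn2 M u v) : conn M u v :=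
  conn_mono (Finset.erase_subset (u, v) M) (h (u, v))

lemma nc_le_na (M : Finset (V × V)) : nc M ≤ na M :=
  card_quot_le fun _ _ h => conn_of_conn2 h

lemma nc_anti {M M' : Finset (V × V)} (h : M ⊆ M') : nc M' ≤ nc M :=
  card_quot_le fun _ _ h' => conn_mono h h'

lemma na_anti {M M' : Finset (V × V)} (h : M ⊆ M') : na M' ≤ na M :=
  card_quot_le fun _ _ h' => conn2_mono h h'

/-- a bridge does not matter for 2-edge-connectivity -/
lemma conn2_erase_bridge {M : Finset (V × V)} {e : V × V} (he : ¬ conn (M.erase e) e.1 e.2)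
    {u v : V} (h : conn2 M u v) : conn2 (M.erase e) u v := by
  intro f
  have h1 := h e
  have h2 := h f
  have key : ∀ w, conn (M.erase f) u w → conn ((M.erase e).erase f) u w ∨
      (¬ conn (M.erase e) u w ∧
        (conn ((M.erase e).erase f) u e.1 ∨ conn ((M.erase e).erase f) u e.2)) := by
    intro w hw
    have hsub : (M.erase e).erase f ⊆ M.erase e := Finset.erase_subset _ _
    induction hw with
    | refl => exact Or.inl (conn_refl _ _)
    | @tail b c _ hbc ih =>
      by_cases hg : (b, c) = e ∨ (c, b) = e
      · rcases ih with ih | ⟨ih1, ih2⟩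
        · refine Or.inr ⟨fun hc => ?_, ?_⟩
          · have hb := conn_mono hsub ih
            rcases hg with hg | hg
            · have e1 : b = e.1 := congrArg Prod.fst hg
              have e2 : c = e.2 := congrArg Prod.snd hg
              rw [e1] at hb
              rw [e2] at hc
              exact he (conn_trans (conn_symm hb) hc)
            · have e1 : c = e.1 := congrArg Prod.fst hg
              have e2 : b = e.2 := congrArg Prod.snd hg
              rw [e2] at hb
              rw [e1] at hc
              exact he (conn_trans (conn_symm hc) hb)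
          · rcases hg with hg | hg
            · left
              have e1 : b = e.1 := congrArg Prod.fst hg
              rw [← e1]
              exact ih
            · right
              have e2 : b = e.2 := congrArg Prod.snd hg
              rw [← e2]
              exact ih
        · by_cases hc : conn (M.erase e) u c
          · left
            rcases hg with hg | hg
            · -- c = e.2
              have hc2 : c = e.2 := congrArg Prod.snd hg
              rcases ih2 with ih2 | ih2
              · exfalso
                rw [hc2] at hc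
                exact he (conn_trans (conn_symm (conn_mono hsub ih2)) hc)
              · rw [hc2]
                exact ih2
            · have hc2 : c = e.1 := congrArg Prod.fst hg
              rcases ih2 with ih2 | ih2
              · rw [hc2]
                exact ih2
              · exfalso
                rw [hc2] at hc
                exact he (conn_trans (conn_symm hc) (conn_mono hsub ih2))
          · exact Or.inr ⟨hc, ih2⟩
      · push Not at hg
        have hbc' : (b, c) ∈ (M.erase e).erase f ∨ (c, b) ∈ (M.erase e).erase f := by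
          rcases hbc with hbc | hbc
          · left
            rw [Finset.mem_erase] at hbc ⊢
            exact ⟨hbc.1, Finset.mem_erase.2 ⟨hg.1, hbc.2⟩⟩
          · right
            rw [Finset.mem_erase] at hbc ⊢
            exact ⟨hbc.1, Finset.mem_erase.2 ⟨hg.2, hbc.2⟩⟩
        rcases ih with ih | ⟨ih1, ih2⟩
        · exact Or.inl (ReflTransGen.tail ih hbc')
        · refine Or.inr ⟨fun hc => ih1 ?_, ih2⟩
          refine conn_trans hc (conn_symm ?_)
          exact conn_mono hsub (ReflTransGen.single hbc')
  rcases key v h2 with h3 | ⟨h3, -⟩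
  · exact h3
  · exact absurd h1 h3

open Classical in
/-- number of edges between different 2-edge-connected components -/
noncomputable def nb (M : Finset (V × V)) : ℕ := #(M.filter fun e => ¬ conn2 M e.1 e.2)

lemma forest (M : Finset (V × V)) : nb M + nc M ≤ na M := by
  classical
  induction hn : #M generalizing M with
  | zero =>
    have hM : M = ∅ := Finset.card_eq_zero.1 hn
    have : nb M = 0 := by
      unfold nb
      rw [hM]
      simp
    rw [this, zero_add]
    exact nc_le_na M
  | succ n ih =>
    by_cases hex : ∃ e ∈ M, ¬ conn2 M e.1 e.2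
    · obtain ⟨e, he, hcross⟩ := hex
      have hbr : ¬ conn (M.erase e) e.1 e.2 := by
        unfold conn2 at hcross
        push Not at hcross
        obtain ⟨f, hf⟩ := hcross
        by_cases hfe : f = e
        · rw [← hfe] at hf ⊢
          exact hf
        · exfalso
          exact hf (conn_arc (Finset.mem_erase.2 ⟨Ne.symm hfe, he⟩))
      have h1 := ih (M.erase e) (by rw [Finset.card_erase_of_mem he]; omega)
      have h2 : nc M + 1 ≤ nc (M.erase e) :=
        card_quot_lt (s := cS (M.erase e)) (t := cS M)
          (fun _ _ h => conn_mono (Finset.erase_subset _ _) h) hbr (conn_arc he)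
      have h3 : na (M.erase e) ≤ na M :=
        card_quot_le (s := c2S M) (t := c2S (M.erase e)) fun _ _ h => conn2_erase_bridge hbr h
      have h4 : nb M ≤ nb (M.erase e) + 1 := by
        unfold nb
        have h5 : (M.filter fun e => ¬ conn2 M e.1 e.2) ⊆
            insert e ((M.erase e).filter fun f => ¬ conn2 (M.erase e) f.1 f.2) := by
          intro f hf
          rw [Finset.mem_filter] at hf
          rw [Finset.mem_insert]
          by_cases hfe : f = e
          · exact Or.inl hfe
          · right
            rw [Finset.mem_filter]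
            exact ⟨Finset.mem_erase.2 ⟨hfe, hf.1⟩,
              fun h => hf.2 (conn2_mono (Finset.erase_subset _ _) h)⟩
        exact (Finset.card_le_card h5).trans (Finset.card_insert_le _ _)
      omega
    · have : nb M = 0 := by
        unfold nb
        rw [Finset.card_eq_zero, Finset.filter_eq_empty_iff]
        intro e he
        push Not at hex
        exact not_not.2 (hex e he)
      rw [this, zero_add]
      exact nc_le_na M

end Conn

section Deg

set_option linter.unusedSectionVars false
variable {V : Type*} [Fintype V] [DecidableEq V]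

/-- arcs with exactly one end in `X` -/
def bd (H : Finset (V × V)) (X : Finset V) : Finset (V × V) :=
  H.filter fun e => ¬ (e.1 ∈ X ↔ e.2 ∈ X)

/-- delete the arcs at `x` -/
def del (H : Finset (V × V)) (x : V) : Finset (V × V) := H.filter fun e => e.1 ≠ x ∧ e.2 ≠ x

lemma mem_del {H : Finset (V × V)} {x : V} {e : V × V} :
    e ∈ del H x ↔ e ∈ H ∧ e.1 ≠ x ∧ e.2 ≠ x := by
  unfold del
  rw [Finset.mem_filter]

lemma del_mono {H H' : Finset (V × V)} (h : H ⊆ H') (x : V) : del H x ⊆ del H' x :=
  Finset.filter_subset_filter _ h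

lemma isolated {H : Finset (V × V)} {x v : V} (h : conn (del H x) x v) : v = x := by
  induction h with
  | refl => rfl
  | @tail b c _ hbc ih =>
    rw [ih] at hbc
    exfalso
    rcases hbc with h | h
    · exact (mem_del.1 h).2.1 rfl
    · exact (mem_del.1 h).2.2 rfl

lemma deg_ineq (H : Finset (V × V)) (hloop : ∀ e ∈ H, e.1 ≠ e.2)
    (h4 : ∀ X : Finset V, X.Nonempty → X ≠ Finset.univ → 4 ≤ #(bd H X)) (x : V) :
    2 * na (del H x) + 2 * nc (del H x) ≤ #(bd H {x}) + 4 := by
  classical
  set M := del H x with hM
  have := Fintype.ofFinite (Quotient (c2S M))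
  let cls : V → Quotient (c2S M) := Quotient.mk (c2S M)
  have hbd : ∀ C : Quotient (c2S M), bd H (Finset.univ.filter fun v => cls v = C) =
      H.filter fun e => ¬ (cls e.1 = C ↔ cls e.2 = C) := by
    intro C
    unfold bd
    refine Finset.filter_congr fun e _ => ?_
    simp
  have hclsx : ∀ v, cls v = cls x ↔ v = x := by
    intro v
    constructor
    · intro h
      have h1 : conn2 M v x := Quotient.exact h
      exact isolated (conn_symm (conn_of_conn2 h1))
    · rintro rfl
      rfl
  have hX0 : (Finset.univ.filter fun v => cls v = cls x) = {x} := by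
    ext v
    simp [hclsx]
  -- lower bound
  have hlow : #(bd H {x}) + 4 * (na M - 1) ≤
      ∑ C : Quotient (c2S M), #(bd H (Finset.univ.filter fun v => cls v = C)) := by
    rw [← Finset.add_sum_erase _ _ (Finset.mem_univ (cls x)), hX0]
    have h1 : ∑ C ∈ Finset.univ.erase (cls x), 4 ≤
        ∑ C ∈ Finset.univ.erase (cls x), #(bd H (Finset.univ.filter fun v => cls v = C)) := by
      refine Finset.sum_le_sum fun C hC => ?_
      have hne := Finset.ne_of_mem_erase hC
      apply h4
      · obtain ⟨v, hv⟩ := Quotient.exists_rep C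
        exact ⟨v, by simp [cls, hv]⟩
      · intro h
        have h2 : x ∈ (Finset.univ.filter fun v => cls v = C) := by
          rw [h]
          exact Finset.mem_univ _
        rw [Finset.mem_filter] at h2
        exact hne h2.2.symm
    rw [Finset.sum_const, Finset.card_erase_of_mem (Finset.mem_univ _), Finset.card_univ,
      smul_eq_mul] at h1
    have h2 : na M = Fintype.card (Quotient (c2S M)) := Nat.card_eq_fintype_card
    rw [h2]
    omega
  -- upper bound
  have hup : ∑ C : Quotient (c2S M), #(bd H (Finset.univ.filter fun v => cls v = C)) ≤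
      2 * (nb M + #(bd H {x})) := by
    have h1 : ∑ C : Quotient (c2S M), #(bd H (Finset.univ.filter fun v => cls v = C)) =
        ∑ e ∈ H, #(Finset.univ.filter fun C : Quotient (c2S M) =>
          ¬ (cls e.1 = C ↔ cls e.2 = C)) := by
      simp only [hbd, Finset.card_filter]
      rw [Finset.sum_comm]
    rw [h1]
    have h2 : ∀ e ∈ H, #(Finset.univ.filter fun C : Quotient (c2S M) =>
        ¬ (cls e.1 = C ↔ cls e.2 = C)) ≤ 2 * (if cls e.1 = cls e.2 then 0 else 1) := by
      intro e _
      split_ifs with h
      · have : (Finset.univ.filter fun C : Quotient (c2S M) =>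
            ¬ (cls e.1 = C ↔ cls e.2 = C)) = ∅ := by
          rw [Finset.filter_eq_empty_iff]
          intro C _
          rw [h]
          simp
        rw [this]
        simp
      · have : (Finset.univ.filter fun C : Quotient (c2S M) =>
            ¬ (cls e.1 = C ↔ cls e.2 = C)) ⊆ {cls e.1, cls e.2} := by
          intro C hC
          rw [Finset.mem_filter] at hC
          rw [Finset.mem_insert, Finset.mem_singleton]
          by_contra hcon
          push Not at hcon
          apply hC.2
          constructor
          · intro h'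
            exact absurd h'.symm hcon.1
          · intro h'
            exact absurd h'.symm hcon.2
        exact (Finset.card_le_card this).trans Finset.card_le_two
    refine (Finset.sum_le_sum h2).trans ?_
    rw [← Finset.mul_sum]
    apply Nat.mul_le_mul_left
    have h3 : ∑ e ∈ H, (if cls e.1 = cls e.2 then 0 else 1) =
        #(H.filter fun e => ¬ cls e.1 = cls e.2) := by
      rw [Finset.card_filter]
      refine Finset.sum_congr rfl fun e _ => ?_
      split_ifs <;> simp_all
    rw [h3]
    unfold nb
    refine le_trans (Finset.card_le_card ?_) (Finset.card_union_le _ _)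
    intro e he
    rw [Finset.mem_filter] at he
    rw [Finset.mem_union]
    by_cases hx : e.1 ≠ x ∧ e.2 ≠ x
    · left
      rw [Finset.mem_filter]
      exact ⟨mem_del.2 ⟨he.1, hx⟩, fun h => he.2 (Quotient.sound h)⟩
    · right
      unfold bd
      rw [Finset.mem_filter]
      refine ⟨he.1, ?_⟩
      simp only [Finset.mem_singleton]
      intro hiff
      have hl := hloop e he.1
      by_cases h1 : e.1 = x
      · exact hl (h1.trans (hiff.1 h1).symm)
      · by_cases h2 : e.2 = x
        · exact h1 (hiff.2 h2)
        · exact hx ⟨h1, h2⟩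
  have hf := forest M
  have hna : 1 ≤ na M := by
    have h2 : na M = Fintype.card (Quotient (c2S M)) := Nat.card_eq_fintype_card
    rw [h2]
    exact Fintype.card_pos_iff.2 ⟨cls x⟩
  omega

/-- the undirected part of the requirement -/
def Good (H : Finset (V × V)) : Prop :=
  ∀ x u v, u ≠ x → v ≠ x → conn2 (del H x) u v

/-- potential -/
noncomputable def Ψ (H : Finset (V × V)) : ℕ := ∑ x, (na (del H x) + nc (del H x))

lemma conn_cross {M : Finset (V × V)} {u v : V} (h : conn M u v) (S : V → Prop) (hu : S u)
    (hv : ¬ S v) : ∃ g ∈ M, (S g.1 ∧ ¬ S g.2) ∨ (¬ S g.1 ∧ S g.2) := by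
  induction h with
  | refl => exact absurd hu hv
  | @tail b c _ hbc ih =>
    by_cases hb : S b
    · rcases hbc with h | h
      · exact ⟨(b, c), h, Or.inl ⟨hb, hv⟩⟩
      · exact ⟨(c, b), h, Or.inr ⟨hv, hb⟩⟩
    · exact ih hb

lemma step (G : Finset (V × V)) (hG : Good G) (H : Finset (V × V)) (hH : ¬ Good H) :
    ∃ g ∈ G, g ∉ H ∧ Ψ (insert g H) + 1 ≤ Ψ H := by
  unfold Good conn2 at hH
  push Not at hH
  obtain ⟨x, u, v, hu, hv, e, he⟩ := hH
  obtain ⟨g, hg, hcross⟩ := conn_cross (hG x u v hu hv e)
    (fun w => conn ((del H x).erase e) u w) (conn_refl _ _) he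
  rw [Finset.mem_erase, mem_del] at hg
  obtain ⟨hge, hgG, hg1, hg2⟩ := hg
  -- `g` separates
  have hsep : ¬ conn ((del H x).erase e) g.1 g.2 := by
    intro h
    rcases hcross with ⟨h1, h2⟩ | ⟨h1, h2⟩
    · exact h2 (conn_trans h1 h)
    · exact h1 (conn_trans h2 (conn_symm h))
  have hgH : g ∉ H := by
    intro h
    exact hsep (conn_arc (Finset.mem_erase.2 ⟨hge, mem_del.2 ⟨h, hg1, hg2⟩⟩))
  refine ⟨g, hgG, hgH, ?_⟩
  have hsub : H ⊆ insert g H := Finset.subset_insert _ _
  have hle : ∀ y ∈ (Finset.univ : Finset V), na (del (insert g H) y) + nc (del (insert g H) y) ≤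
      na (del H y) + nc (del H y) := fun y _ =>
    add_le_add (na_anti (del_mono hsub y)) (nc_anti (del_mono hsub y))
  have hgin : g ∈ del (insert g H) x := mem_del.2 ⟨Finset.mem_insert_self _ _, hg1, hg2⟩
  have hlt : na (del (insert g H) x) + nc (del (insert g H) x) <
      na (del H x) + nc (del H x) := by
    by_cases hc : conn (del H x) g.1 g.2
    · have h1 : na (del (insert g H) x) < na (del H x) := by
        refine card_quot_lt (s := c2S (del H x)) (t := c2S (del (insert g H) x))
          (fun _ _ h => conn2_mono (del_mono hsub x) h) (u := g.1) (v := g.2)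
          (fun h => hsep (h e)) ?_
        intro f
        by_cases hfg : f = g
        · refine conn_mono ?_ hc
          intro a ha
          rw [Finset.mem_erase]
          refine ⟨?_, del_mono hsub x ha⟩
          rintro rfl
          rw [hfg] at ha
          exact hgH (mem_del.1 ha).1
        · exact conn_arc (Finset.mem_erase.2 ⟨Ne.symm hfg, hgin⟩)
      have h2 := nc_anti (del_mono hsub x)
      omega
    · have h1 : nc (del (insert g H) x) < nc (del H x) :=
        card_quot_lt (s := cS (del H x)) (t := cS (del (insert g H) x))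
          (fun _ _ h => conn_mono (del_mono hsub x) h) hc (conn_arc hgin)
      have h2 := na_anti (del_mono hsub x)
      omega
  exact Finset.sum_lt_sum hle ⟨x, Finset.mem_univ x, hlt⟩

lemma process (G : Finset (V × V)) (hG : Good G) (n : ℕ) : ∀ H ⊆ G, #(G \ H) = n →
    ∃ H', H ⊆ H' ∧ H' ⊆ G ∧ Good H' ∧ #H' + Ψ H' ≤ #H + Ψ H := by
  induction n with
  | zero =>
    intro H hHG hn
    refine ⟨G, hHG, Finset.Subset.refl _, hG, ?_⟩
    have : G ⊆ H := Finset.sdiff_eq_empty_iff_subset.1 (Finset.card_eq_zero.1 hn)
    rw [Finset.Subset.antisymm hHG this]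
  | succ n ih =>
    intro H hHG hn
    by_cases hgood : Good H
    · exact ⟨H, Finset.Subset.refl _, hHG, hgood, le_rfl⟩
    · obtain ⟨g, hgG, hgH, hΨ⟩ := step G hG H hgood
      have h1 : insert g H ⊆ G := Finset.insert_subset hgG hHG
      have h2 : #(G \ insert g H) = n := by
        have h3 : G \ insert g H = (G \ H).erase g := by
          ext a
          simp only [Finset.mem_sdiff, Finset.mem_insert, Finset.mem_erase]
          tauto
        rw [h3, Finset.card_erase_of_mem (Finset.mem_sdiff.2 ⟨hgG, hgH⟩), hn]
        omega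
      obtain ⟨H', hH1, hH2, hH3, hH4⟩ := ih (insert g H) h1 h2
      refine ⟨H', (Finset.subset_insert _ _).trans hH1, hH2, hH3, ?_⟩
      rw [Finset.card_insert_of_notMem hgH] at hH4
      omega

lemma two_le_nc (H : Finset (V × V)) (x : V) (hV : 2 ≤ Fintype.card V) : 2 ≤ nc (del H x) := by
  have : Nontrivial V := Fintype.one_lt_card_iff_nontrivial.1 (by omega)
  obtain ⟨y, hy⟩ := exists_ne x
  have h1 : Nontrivial (Quotient (cS (del H x))) := by
    refine ⟨Quotient.mk _ x, Quotient.mk _ y, fun h => hy ?_⟩
    exact isolated (Quotient.exact h)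
  exact Finite.one_lt_card_iff_nontrivial.2 h1

lemma Ψ_ge (H : Finset (V × V)) (hV : 2 ≤ Fintype.card V) : 4 * Fintype.card V ≤ Ψ H := by
  unfold Ψ
  have : ∑ x : V, 4 ≤ ∑ x, (na (del H x) + nc (del H x)) := by
    refine Finset.sum_le_sum fun x _ => ?_
    have h1 := two_le_nc H x hV
    have h2 := nc_le_na (del H x)
    omega
  rw [Finset.sum_const, Finset.card_univ, smul_eq_mul] at this
  omega

lemma Ψ_le (H : Finset (V × V)) (hloop : ∀ e ∈ H, e.1 ≠ e.2)
    (h4 : ∀ X : Finset V, X.Nonempty → X ≠ Finset.univ → 4 ≤ #(bd H X)) :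
    Ψ H ≤ #H + 2 * Fintype.card V := by
  have h1 : 2 * Ψ H ≤ ∑ x, (#(bd H {x}) + 4) := by
    unfold Ψ
    rw [Finset.mul_sum]
    refine Finset.sum_le_sum fun x _ => ?_
    have := deg_ineq H hloop h4 x
    omega
  rw [Finset.sum_add_distrib, Finset.sum_const, Finset.card_univ, smul_eq_mul] at h1
  have h2 : ∑ x : V, #(bd H {x}) ≤ 2 * #H := by
    have h3 : ∑ x : V, #(bd H {x}) =
        ∑ e ∈ H, #(Finset.univ.filter fun x : V => ¬ (e.1 ∈ ({x} : Finset V) ↔ e.2 ∈ ({x} : Finset V))) := by
      simp only [bd, Finset.card_filter]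
      rw [Finset.sum_comm]
    rw [h3]
    have h4 : ∀ e ∈ H, #(Finset.univ.filter fun x : V =>
        ¬ (e.1 ∈ ({x} : Finset V) ↔ e.2 ∈ ({x} : Finset V))) ≤ 2 := by
      intro e _
      have : (Finset.univ.filter fun x : V =>
          ¬ (e.1 ∈ ({x} : Finset V) ↔ e.2 ∈ ({x} : Finset V))) ⊆ {e.1, e.2} := by
        intro y hy
        rw [Finset.mem_filter] at hy
        rw [Finset.mem_insert, Finset.mem_singleton]
        by_contra hcon
        push Not at hcon
        apply hy.2
        simp only [Finset.mem_singleton]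
        constructor
        · intro h'
          exact absurd h'.symm hcon.1
        · intro h'
          exact absurd h'.symm hcon.2
      exact (Finset.card_le_card this).trans Finset.card_le_two
    have h5 := Finset.sum_le_sum h4
    rw [Finset.sum_const, smul_eq_mul] at h5
    omega
  omega

end Deg

section Final

set_option linter.unusedSectionVars false
variable {V : Type*}

lemma sc_enter {E : V → V → Prop} (h : StronglyConnected E) (X : Finset V) (hX : X.Nonempty)
    {w : V} (hw : w ∉ X) : ∃ a b, E a b ∧ a ∉ X ∧ b ∈ X := by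
  obtain ⟨v, hv⟩ := hX
  induction h w v with
  | refl => exact absurd hv hw
  | @tail b c _ hbc ih =>
    by_cases hb : b ∈ X
    · exact ih hb
    · exact ⟨b, c, hbc, hb, hv⟩

lemma sc_leave {E : V → V → Prop} (h : StronglyConnected E) (X : Finset V) (hX : X.Nonempty)
    {w : V} (hw : w ∉ X) : ∃ a b, E a b ∧ a ∈ X ∧ b ∉ X := by
  obtain ⟨v, hv⟩ := hX
  induction h v w with
  | refl => exact absurd hv hw
  | @tail b c _ hbc ih =>
    by_cases hb : b ∈ X
    · exact ⟨b, c, hbc, hb, hw⟩
    · exact ih hb

lemma sb_mono {E E' : V → V → Prop} (hE : ∀ a b, E a b → E' a b) (h : StronglyBiconnected E) :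
    StronglyBiconnected E' := by
  refine ⟨fun u v => ?_, fun u v => ?_, fun x u v hu hv => ?_⟩
  · induction h.1 u v with
    | refl => exact ReflTransGen.refl
    | tail _ h ih => exact ih.tail (hE _ _ h)
  · induction h.2.1 u v with
    | refl => exact ReflTransGen.refl
    | tail _ h ih => exact ih.tail (h.imp (hE _ _) (hE _ _))
  · have h1 := h.2.2 x u v hu hv
    clear hv
    induction h1 with
    | refl => exact ReflTransGen.refl
    | tail _ h ih => exact ih.tail ⟨h.1, h.2.1, h.2.2.imp (hE _ _) (hE _ _)⟩

variable [Fintype V] [DecidableEq V]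

lemma twoESB_mono {E E' : V → V → Prop} (hE : ∀ a b, E a b → E' a b) (h : TwoESB E) :
    TwoESB E' := by
  refine ⟨sb_mono hE h.1, h.2.1, fun a b _ => ?_⟩
  by_cases hab : E a b
  · exact sb_mono (fun u v h => ⟨hE _ _ h.1, h.2⟩) (h.2.2 a b hab)
  · refine sb_mono (fun u v h => ⟨hE _ _ h, ?_⟩) h.1
    rintro ⟨rfl, rfl⟩
    exact hab h

/-- **Arc bound.** A minimal 2-edge-strongly biconnected digraph on `n` vertices has at most
`6 n - 8` arcs, hence fewer than `7 n`. -/
theorem result {V : Type*} [Fintype V] (E : V → V → Prop) (hloop : ∀ v, ¬ E v v)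
    (hmin : IsMinimalTwoESB E) :
    Nat.card {p : V × V // E p.1 p.2} + 8 ≤ 6 * Fintype.card V ∧
      Nat.card {p : V × V // E p.1 p.2} ≤ 7 * Fintype.card V := by
  classical
  obtain ⟨hE, hmin⟩ := hmin
  set G : Finset (V × V) := Finset.univ.filter fun p => E p.1 p.2 with hG
  have hGcard : Nat.card {p : V × V // E p.1 p.2} = #G := by
    rw [Nat.card_eq_fintype_card, Fintype.card_subtype]
  rw [hGcard]
  have hmem : ∀ p : V × V, p ∈ G ↔ E p.1 p.2 := by
    intro p
    rw [hG, Finset.mem_filter]
    exact ⟨fun h => h.2, fun h => ⟨Finset.mem_univ _, h⟩⟩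
  have hn := hE.2.1
  -- cut conditions in G
  have hGin : ∀ X : Finset V, X.Nonempty → ∀ w, w ∉ X →
      2 ≤ #(inn Prod.fst Prod.snd G X) := by
    intro X hX w hw
    obtain ⟨a, b, hab, ha, hb⟩ := sc_enter hE.1.1 X hX hw
    obtain ⟨a', b', hab', ha', hb'⟩ := sc_enter (hE.2.2 a b hab).1 X hX hw
    have h1 : (a, b) ∈ inn Prod.fst Prod.snd G X :=
      Finset.mem_filter.2 ⟨(hmem _).2 hab, ha, hb⟩
    have h2 : (a', b') ∈ inn Prod.fst Prod.snd G X :=
      Finset.mem_filter.2 ⟨(hmem _).2 hab'.1, ha', hb'⟩
    have h3 : (a', b') ≠ (a, b) := fun h => hab'.2 ⟨congrArg Prod.fst h, congrArg Prod.snd h⟩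
    exact Finset.one_lt_card.2 ⟨_, h2, _, h1, h3⟩
  have hGout : ∀ X : Finset V, X.Nonempty → ∀ w, w ∉ X →
      2 ≤ #(inn Prod.snd Prod.fst G X) := by
    intro X hX w hw
    obtain ⟨a, b, hab, ha, hb⟩ := sc_leave hE.1.1 X hX hw
    obtain ⟨a', b', hab', ha', hb'⟩ := sc_leave (hE.2.2 a b hab).1 X hX hw
    have h1 : (a, b) ∈ inn Prod.snd Prod.fst G X :=
      Finset.mem_filter.2 ⟨(hmem _).2 hab, hb, ha⟩
    have h2 : (a', b') ∈ inn Prod.snd Prod.fst G X :=
      Finset.mem_filter.2 ⟨(hmem _).2 hab'.1, hb', ha'⟩
    have h3 : (a', b') ≠ (a, b) := fun h => hab'.2 ⟨congrArg Prod.fst h, congrArg Prod.snd h⟩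
    exact Finset.one_lt_card.2 ⟨_, h2, _, h1, h3⟩
  have hne : Nonempty V := Fintype.card_pos_iff.1 (by omega)
  obtain ⟨r⟩ := hne
  obtain ⟨Hi, hHiG, hHi, hHic⟩ := rooted Prod.fst Prod.snd G r (fun X hX hr => hGin X hX r hr)
  obtain ⟨Ho, hHoG, hHo, hHoc⟩ := rooted Prod.snd Prod.fst G r (fun X hX hr => hGout X hX r hr)
  set H1 := Hi ∪ Ho with hH1
  have hH1G : H1 ⊆ G := Finset.union_subset hHiG hHoG
  have hH1c : #H1 ≤ 4 * (Fintype.card V - 1) := by
    have h : #H1 ≤ #Hi + #Ho := Finset.card_union_le Hi Ho
    omega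
  have hcompl : ∀ (H : Finset (V × V)) (X : Finset V),
      inn Prod.fst Prod.snd H X = inn Prod.snd Prod.fst H Xᶜ := by
    intro H X
    ext e
    simp only [inn, Finset.mem_filter, Finset.mem_compl]
    tauto
  have hcompl' : ∀ (H : Finset (V × V)) (X : Finset V),
      inn Prod.snd Prod.fst H X = inn Prod.fst Prod.snd H Xᶜ := by
    intro H X
    ext e
    simp only [inn, Finset.mem_filter, Finset.mem_compl]
    tauto
  have hXc : ∀ X : Finset V, X ≠ Finset.univ → Xᶜ.Nonempty := by
    intro X hX
    rw [Finset.nonempty_iff_ne_empty]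
    intro h
    exact hX (compl_eq_bot.1 h)
  have hH1in : ∀ X : Finset V, X.Nonempty → X ≠ Finset.univ →
      2 ≤ #(inn Prod.fst Prod.snd H1 X) := by
    intro X hX hXu
    by_cases hr : r ∈ X
    · rw [hcompl]
      exact (hHo Xᶜ (hXc X hXu) (by simpa using hr)).trans
        (inn_mono _ _ Finset.subset_union_right _)
    · exact (hHi X hX hr).trans (inn_mono _ _ Finset.subset_union_left _)
  have hH1out : ∀ X : Finset V, X.Nonempty → X ≠ Finset.univ →
      2 ≤ #(inn Prod.snd Prod.fst H1 X) := by
    intro X hX hXu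
    by_cases hr : r ∈ X
    · rw [hcompl']
      exact (hHi Xᶜ (hXc X hXu) (by simpa using hr)).trans
        (inn_mono _ _ Finset.subset_union_left _)
    · exact (hHo X hX hr).trans (inn_mono _ _ Finset.subset_union_right _)
  have hH1bd : ∀ X : Finset V, X.Nonempty → X ≠ Finset.univ → 4 ≤ #(bd H1 X) := by
    intro X hX hXu
    have h1 := hH1in X hX hXu
    have h2 := hH1out X hX hXu
    have h3 : Disjoint (inn Prod.fst Prod.snd H1 X) (inn Prod.snd Prod.fst H1 X) := by
      rw [Finset.disjoint_left]
      intro e he he'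
      simp only [inn, Finset.mem_filter] at he he'
      exact he.2.1 he'.2.2
    have h4 : inn Prod.fst Prod.snd H1 X ∪ inn Prod.snd Prod.fst H1 X ⊆ bd H1 X := by
      intro e he
      simp only [inn, Finset.mem_union, Finset.mem_filter] at he
      simp only [bd, Finset.mem_filter]
      tauto
    have h5 := Finset.card_le_card h4
    rw [Finset.card_union_of_disjoint h3] at h5
    omega
  have hloopG : ∀ e ∈ G, e.1 ≠ e.2 := by
    intro e he h
    have h1 := (hmem e).1 he
    rw [h] at h1
    exact hloop _ h1
  -- goodness of G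
  have hGgood : Good G := by
    intro x u v hu hv e
    have hsb : StronglyBiconnected (DelArc E e.1 e.2) := by
      by_cases he : E e.1 e.2
      · exact hE.2.2 _ _ he
      · refine sb_mono (fun a b h => ⟨h, ?_⟩) hE.1
        rintro ⟨rfl, rfl⟩
        exact he h
    have h1 := hsb.2.2 x u v hu hv
    clear hv
    induction h1 with
    | refl => exact conn_refl _ _
    | @tail b c _ hbc ih =>
      refine ReflTransGen.tail ih ?_
      rcases hbc.2.2 with h | h
      · left
        exact Finset.mem_erase.2 ⟨fun h' => h.2 ⟨congrArg Prod.fst h', congrArg Prod.snd h'⟩,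
          mem_del.2 ⟨(hmem _).2 h.1, hbc.1, hbc.2.1⟩⟩
      · right
        exact Finset.mem_erase.2 ⟨fun h' => h.2 ⟨congrArg Prod.fst h', congrArg Prod.snd h'⟩,
          mem_del.2 ⟨(hmem _).2 h.1, hbc.2.1, hbc.1⟩⟩
  obtain ⟨H', hH1H', hH'G, hgood, hcount⟩ := process G hGgood _ H1 hH1G rfl
  -- H' is 2-edge-strongly biconnected
  have hsc : ∀ a b : V, StronglyConnected (DelArc (fun u v => (u, v) ∈ H') a b) := by
    intro a b u v
    by_contra hcon
    let S : Finset V := Finset.univ.filter fun w =>
      ReflTransGen (DelArc (fun u v => (u, v) ∈ H') a b) u w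
    have huS : u ∈ S := Finset.mem_filter.2 ⟨Finset.mem_univ _, ReflTransGen.refl⟩
    have hvS : v ∉ S := fun h => hcon (Finset.mem_filter.1 h).2
    have h1 : 2 ≤ #(inn Prod.snd Prod.fst H1 S) :=
      hH1out S ⟨u, huS⟩ (fun h => hvS (by rw [h]; exact Finset.mem_univ _))
    obtain ⟨p, hp, hpne⟩ := Finset.exists_mem_ne
      (s := inn Prod.snd Prod.fst H1 S) (by omega) (a, b)
    unfold inn at hp
    rw [Finset.mem_filter] at hp
    obtain ⟨hpH, hp2, hp1⟩ := hp
    apply hp2
    rw [Finset.mem_filter]
    refine ⟨Finset.mem_univ _, (Finset.mem_filter.1 hp1).2.tail ⟨hH1H' hpH, ?_⟩⟩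
    rintro ⟨h2, h3⟩
    exact hpne (Prod.ext h2 h3)
  have hsb : ∀ a b : V, StronglyBiconnected (DelArc (fun u v => (u, v) ∈ H') a b) := by
    intro a b
    refine ⟨hsc a b, fun u v => ?_, fun x u v hu hv => ?_⟩
    · induction hsc a b u v with
      | refl => exact ReflTransGen.refl
      | tail _ h ih => exact ih.tail (Or.inl h)
    · have h1 := hgood x u v hu hv (a, b)
      clear hv
      induction h1 with
      | refl => exact ReflTransGen.refl
      | @tail c d _ hcd ih =>
        refine ih.tail ?_
        rcases hcd with h | h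
        · rw [Finset.mem_erase, mem_del] at h
          exact ⟨h.2.2.1, h.2.2.2, Or.inl ⟨h.2.1, fun h' => h.1 (Prod.ext h'.1 h'.2)⟩⟩
        · rw [Finset.mem_erase, mem_del] at h
          exact ⟨h.2.2.2, h.2.2.1, Or.inr ⟨h.2.1, fun h' => h.1 (Prod.ext h'.1 h'.2)⟩⟩
  have hESB : TwoESB (fun u v => (u, v) ∈ H') :=
    ⟨sb_mono (fun _ _ h => h.1) (hsb r r), hn, fun a b _ => hsb a b⟩
  have hGH : G = H' := by
    refine Finset.Subset.antisymm (fun e he => ?_) hH'G
    by_contra hcon
    refine hmin e.1 e.2 ((hmem e).1 he) (twoESB_mono (fun a b h => ⟨(hmem _).1 (hH'G h), ?_⟩) hESB)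
    rintro ⟨h1, h2⟩
    apply hcon
    have : e = (a, b) := Prod.ext h1.symm h2.symm
    rw [this]
    exact h
  have hlow := Ψ_ge H' (by omega)
  have hup := Ψ_le H1 (fun e he => hloopG e (hH1G he)) hH1bd
  rw [hGH]
  omega

end Final

end Pool.Agent.Results.MP_93593e_co.ArcBound
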